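import Pool.Agent.H115R2.Assemble

/-!
# Harmonious labelings of trees of radius two

Let `v` be a vertex of a finite tree such that all vertices have distance at most two from `v`, let `k` be the
number of the neighbours of `v` with neighbours at distance two from `v`, let `n` be the number of the
vertices at distance two, and let `q` be the number of edges. If `(k + 1) n + 2 k ≤ 2 q`, that is, if `v` is
adjacent to at least `(k - 1) n / 2` leaves, then the tree is harmonious.

Proof. Label `v` by `0`, the `k` neighbours by `s = 1, ..., k` in one of two opposite orders, and the vertices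
at distance two, in any order, by the negative partial sums of the labels of their parents. The edge sums of
these edges are labels already used, and the leaves at `v` get the residue classes which are no edge sums.
-/

set_option autoImplicit false

open Finset

namespace Pool.Agent.Results.MP_9ddc60_co.RadiusTwo

theorem chain {V : Type} [DecidableEq V] (t : V → ℕ) (X : Finset V) : (∀ x ∈ X, 1 ≤ t x) →
    ∃ c c' : V → ℕ, (∀ x ∈ X, c x = c' x + t x) ∧ (∀ x ∈ X, c x ≤ ∑ y ∈ X, t y) ∧
      (∀ x ∈ X, ∀ y ∈ X, c x = c y → x = y) ∧ (∀ x ∈ X, ∀ y ∈ X, c' x = c' y → x = y) ∧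
      (∀ x ∈ X, c' x = 0 ∨ ∃ y ∈ X, c y = c' x) ∧ (X = ∅ ∨ ∃ y ∈ X, c y = ∑ y ∈ X, t y) := by
  induction X using Finset.induction_on with
  | empty => intro _; exact ⟨fun _ => 0, fun _ => 0, by simp⟩
  | insert a X ha ih =>
    intro ht
    obtain ⟨c, c', h1, h2, h3, h4, h5, h6⟩ := ih fun x hx => ht x (mem_insert_of_mem hx)
    have hta : 1 ≤ t a := ht a (mem_insert_self _ _)
    have hS : ∑ y ∈ insert a X, t y = t a + ∑ y ∈ X, t y := sum_insert ha
    have hne : ∀ x ∈ X, x ≠ a := fun x hx h => ha (h ▸ hx)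
    have hX : ∀ x ∈ X, c' x < ∑ y ∈ X, t y ∧ c x ≤ ∑ y ∈ X, t y := fun x hx => by
      have := h1 x hx
      have := h2 x hx
      have := ht x (mem_insert_of_mem hx)
      omega
    refine ⟨fun x => if x = a then t a + ∑ y ∈ X, t y else c x,
      fun x => if x = a then ∑ y ∈ X, t y else c' x, ?_, ?_, ?_, ?_, ?_, ?_⟩
    · intro x hx
      rcases mem_insert.1 hx with rfl | hx
      · simp only [if_true]; omega
      · simp only [if_neg (hne x hx)]; exact h1 x hx
    · intro x hx
      rw [hS]
      rcases mem_insert.1 hx with rfl | hx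
      · simp
      · simp only [if_neg (hne x hx)]
        have := hX x hx
        omega
    · intro x hx y hy h
      rcases mem_insert.1 hx with hx | hx <;> rcases mem_insert.1 hy with hy | hy
      · rw [hx, hy]
      · have := hX y hy
        simp only [if_pos hx, if_neg (hne y hy)] at h
        omega
      · have := hX x hx
        simp only [if_pos hy, if_neg (hne x hx)] at h
        omega
      · simp only [if_neg (hne y hy), if_neg (hne x hx)] at h
        exact h3 x hx y hy h
    · intro x hx y hy h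
      rcases mem_insert.1 hx with hx | hx <;> rcases mem_insert.1 hy with hy | hy
      · rw [hx, hy]
      · have := hX y hy
        simp only [if_pos hx, if_neg (hne y hy)] at h
        omega
      · have := hX x hx
        simp only [if_pos hy, if_neg (hne x hx)] at h
        omega
      · simp only [if_neg (hne y hy), if_neg (hne x hx)] at h
        exact h4 x hx y hy h
    · intro x hx
      rcases mem_insert.1 hx with hx | hx
      · rcases h6 with h6 | ⟨y, hy, h6⟩
        · left; simp [hx, h6]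
        · right
          refine ⟨y, mem_insert_of_mem hy, ?_⟩
          simp only [if_pos hx, if_neg (hne y hy)]
          exact h6
      · rcases h5 x hx with h5 | ⟨y, hy, h5⟩
        · left; simp only [if_neg (hne x hx)]; exact h5
        · right
          refine ⟨y, mem_insert_of_mem hy, ?_⟩
          simp only [if_neg (hne x hx), if_neg (hne y hy)]
          exact h5
    · right
      exact ⟨a, mem_insert_self _ _, by rw [hS]; simp⟩

theorem main {V : Type} [Fintype V] [DecidableEq V] (G : SimpleGraph V) (v : V) (par : V → V)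
    (hcov : ∀ a b, G.Adj a b → (a ≠ v ∧ par a = b) ∨ (b ≠ v ∧ par b = a))
    (q : ℕ) (hq : 0 < q) (hc : Fintype.card V = q + 1) (Y X : Finset V) (hvY : v ∉ Y) (hvX : v ∉ X)
    (hYX : ∀ x ∈ X, x ∉ Y) (hX : ∀ x ∈ X, par x ∈ Y) (hYp : ∀ y ∈ Y, ∃ x, x ∈ X) (hn : ∀ x, x ≠ v → x ∉ X → par x = v)
    (s : V → ℕ) (k : ℕ) (hs : ∀ y ∈ Y, 1 ≤ s y ∧ s y ≤ k) (hinj : ∀ x ∈ Y, ∀ y ∈ Y, s x = s y → x = y)
    (hS : ∑ x ∈ X, s (par x) + k ≤ q) :
    ∃ f : V → ZMod q, Function.Surjective f ∧ ∀ u v x y : V, G.Adj u v → G.Adj x y →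
      f u + f v = f x + f y → s(u, v) = s(x, y) := by
  classical
  have : NeZero q := ⟨hq.ne'⟩
  obtain ⟨c, c', h1, h2, h3, h4, h5, -⟩ := chain (fun x => s (par x)) X fun x hx => (hs _ (hX x hx)).1
  have cast_inj : ∀ a b : ℕ, a < q → b < q → (a : ZMod q) = b → a = b := by
    intro a b ha hb h
    rw [ZMod.natCast_eq_natCast_iff'] at h
    rwa [Nat.mod_eq_of_lt ha, Nat.mod_eq_of_lt hb] at h
  have hb : ∀ x ∈ X, c' x + k < q ∧ c x + k ≤ q ∧ c x = c' x + s (par x) ∧ 1 ≤ s (par x) := by
    intro x hx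
    have := h1 x hx
    have := h2 x hx
    have := hs _ (hX x hx)
    omega
  -- the edge sums
  let φ : V → ZMod q := fun x => if x ∈ Y then (s x : ZMod q) else - (c' x : ZMod q)
  have hφY : ∀ x ∈ Y, φ x = s x := fun x hx => if_pos hx
  have hφX : ∀ x ∈ X, φ x = - (c' x : ZMod q) := fun x hx => if_neg (hYX x hx)
  have hφ : ∀ x ∈ Y ∪ X, ∀ y ∈ Y ∪ X, φ x = φ y → x = y := by
    have key : ∀ x ∈ Y, ∀ y ∈ X, φ x ≠ φ y := by
      intro x hx y hy h
      rw [hφY x hx, hφX y hy] at h
      have h6 : ((s x + c' y : ℕ) : ZMod q) = (0 : ℕ) := by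
        push_cast
        rw [h]; ring
      have h7 := hb y hy
      have h8 := hs x hx
      have := cast_inj _ _ (by omega) hq h6
      omega
    intro x hx y hy h
    rcases mem_union.1 hx with hx | hx <;> rcases mem_union.1 hy with hy | hy
    · rw [hφY x hx, hφY y hy] at h
      obtain ⟨z, hz⟩ := hYp x hx
      have hz' := hb z hz
      refine hinj x hx y hy (cast_inj _ _ ?_ ?_ h)
      · have := hs x hx
        omega
      · have := hs y hy
        omega
    · exact absurd h (key x hx y hy)
    · exact absurd h.symm (key y hy x hx)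
    · rw [hφX x hx, hφX y hy, neg_inj] at h
      have := hb x hx
      have := hb y hy
      exact h4 x hx y hy (cast_inj _ _ (by omega) (by omega) h)
  let Z : Finset V := insert v (Y ∪ X)
  have hvZ : v ∉ Y ∪ X := by
    rw [mem_union]; tauto
  have hcard : (univ \ Z).card = (univ \ (Y ∪ X).image φ).card := by
    rw [card_sdiff_of_subset (subset_univ _), card_sdiff_of_subset (subset_univ _), card_insert_of_notMem hvZ,
      card_image_of_injOn (fun x hx y hy h => hφ x hx y hy h), card_univ, card_univ, ZMod.card, hc]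
    omega
  obtain ⟨e⟩ : Nonempty ((univ \ Z : Finset V) ≃ (univ \ (Y ∪ X).image φ : Finset (ZMod q))) :=
    ⟨Finset.equivOfCardEq hcard⟩
  let f : V → ZMod q := fun x => if x = v then 0 else if x ∈ Y then (s x : ZMod q) else
    if x ∈ X then - (c x : ZMod q) else if h : x ∈ univ \ Z then (e ⟨x, h⟩ : ZMod q) else 0
  have fv : f v = 0 := if_pos rfl
  have fY : ∀ x ∈ Y, f x = s x := fun x hx => by
    have : x ≠ v := fun h => hvY (h ▸ hx)
    simp only [f, if_neg this, if_pos hx]
  have fX : ∀ x ∈ X, f x = - (c x : ZMod q) := fun x hx => by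
    have : x ≠ v := fun h => hvX (h ▸ hx)
    simp only [f, if_neg this, if_neg (hYX x hx), if_pos hx]
  have fL : ∀ x (h : x ∈ univ \ Z), f x = (e ⟨x, h⟩ : ZMod q) := fun x h => by
    have h' := (mem_sdiff.1 h).2
    simp only [Z, mem_insert, mem_union, not_or] at h'
    simp only [f, if_neg h'.1, if_neg h'.2.1, if_neg h'.2.2, dif_pos h]
  -- the sum at the edge to the parent
  have hsum : ∀ x, x ≠ v → (x ∈ Y ∪ X ∧ f x + f (par x) = φ x) ∨
      ∃ h : x ∈ univ \ Z, f x + f (par x) = (e ⟨x, h⟩ : ZMod q) := by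
    intro x hx
    by_cases hxX : x ∈ X
    · left
      refine ⟨mem_union_right _ hxX, ?_⟩
      rw [fX x hxX, fY _ (hX x hxX), hφX x hxX, (hb x hxX).2.2.1]
      push_cast; ring
    · have hp := hn x hx hxX
      rw [hp, fv, add_zero]
      by_cases hxY : x ∈ Y
      · left
        exact ⟨mem_union_left _ hxY, by rw [fY x hxY, hφY x hxY]⟩
      · right
        have h : x ∈ univ \ Z := by
          rw [mem_sdiff]
          refine ⟨mem_univ _, ?_⟩
          simp only [Z, mem_insert, mem_union, not_or]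
          exact ⟨hx, hxY, hxX⟩
        exact ⟨h, fL x h⟩
  have hsi : ∀ x y, x ≠ v → y ≠ v → f x + f (par x) = f y + f (par y) → x = y := by
    have key : ∀ x ∈ Y ∪ X, ∀ y (h : y ∈ univ \ Z), φ x ≠ (e ⟨y, h⟩ : ZMod q) := by
      intro x hx y h h'
      have := (mem_sdiff.1 (e ⟨y, h⟩).2).2
      exact this (h' ▸ mem_image_of_mem φ hx)
    intro x y hx hy h
    rcases hsum x hx with ⟨hx1, hx2⟩ | ⟨hx1, hx2⟩ <;> rcases hsum y hy with ⟨hy1, hy2⟩ | ⟨hy1, hy2⟩ <;>
      rw [hx2, hy2] at h
    · exact hφ x hx1 y hy1 h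
    · exact absurd h (key x hx1 y hy1)
    · exact absurd h.symm (key y hy1 x hx1)
    · have := e.injective (Subtype.ext h)
      exact congrArg Subtype.val this
  refine ⟨f, ?_, ?_⟩
  · intro z
    by_cases hz : z ∈ (Y ∪ X).image φ
    · obtain ⟨x, hx, rfl⟩ := mem_image.1 hz
      rcases mem_union.1 hx with hx | hx
      · exact ⟨x, by rw [fY x hx, hφY x hx]⟩
      · rcases h5 x hx with h | ⟨y, hy, h⟩
        · exact ⟨v, by rw [fv, hφX x hx, h]; simp⟩
        · exact ⟨y, by rw [fX y hy, hφX x hx, h]⟩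
    · have hz' : z ∈ univ \ (Y ∪ X).image φ := mem_sdiff.2 ⟨mem_univ _, hz⟩
      refine ⟨(e.symm ⟨z, hz'⟩ : V), ?_⟩
      rw [fL _ (e.symm ⟨z, hz'⟩).2]
      simp
  · intro a b x y hab hxy h
    have dir : ∀ a b, G.Adj a b → ∃ x, x ≠ v ∧ f a + f b = f x + f (par x) ∧
        s(a, b) = s(x, par x) := by
      intro a b hab
      rcases hcov a b hab with ⟨h1, h2⟩ | ⟨h1, h2⟩
      · exact ⟨a, h1, by rw [h2], by rw [h2]⟩
      · exact ⟨b, h1, by rw [h2, add_comm], by rw [h2]; exact Sym2.eq_swap⟩
    obtain ⟨w, hw, hw1, hw2⟩ := dir a b hab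
    obtain ⟨z, hz, hz1, hz2⟩ := dir x y hxy
    rw [hw2, hz2, hsi w z hw hz (by rw [← hw1, ← hz1, h])]

/-- a labelling of `Y` by `1, ..., #Y` with a small sum over `X` -/
theorem exists_s {V : Type} [DecidableEq V] (par : V → V) (Y X : Finset V) (hX : ∀ x ∈ X, par x ∈ Y) :
    ∃ s : V → ℕ, (∀ y ∈ Y, 1 ≤ s y ∧ s y ≤ Y.card) ∧ (∀ x ∈ Y, ∀ y ∈ Y, s x = s y → x = y) ∧
      2 * ∑ x ∈ X, s (par x) ≤ (Y.card + 1) * X.card := by
  classical
  let e := Y.equivFin
  let i : V → ℕ := fun x => if h : x ∈ Y then (e ⟨x, h⟩).val else 0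
  have hi : ∀ x ∈ Y, i x < Y.card := fun x hx => by
    simp only [i, dif_pos hx]
    exact (e ⟨x, hx⟩).2
  have hinj : ∀ x ∈ Y, ∀ y ∈ Y, i x = i y → x = y := by
    intro x hx y hy h
    simp only [i, dif_pos hx, dif_pos hy] at h
    exact congrArg Subtype.val (e.injective (Fin.ext h))
  have hsum : ∑ x ∈ X, (i (par x) + 1) + ∑ x ∈ X, (Y.card - i (par x)) = (Y.card + 1) * X.card := by
    rw [← sum_add_distrib, mul_comm, ← smul_eq_mul, ← sum_const]
    refine sum_congr rfl fun x hx => ?_
    have := hi _ (hX x hx)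
    omega
  by_cases h : 2 * ∑ x ∈ X, (i (par x) + 1) ≤ (Y.card + 1) * X.card
  · refine ⟨fun x => i x + 1, fun y hy => ?_, fun x hx y hy h => ?_, h⟩
    · have := hi y hy
      simp only; omega
    · exact hinj x hx y hy (by simp only at h; omega)
  · refine ⟨fun x => Y.card - i x, fun y hy => ?_, fun x hx y hy h => ?_, by simp only; omega⟩
    · have := hi y hy
      simp only; omega
    · have := hi x hx
      have := hi y hy
      exact hinj x hx y hy (by simp only at h; omega)

/-- **Trees of radius two with enough leaves at the centre are harmonious.** Let all vertices of the tree `G` have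
distance at most two from `v`, let `k` be the number of the neighbours of `v` which have a neighbour at distance
two from `v`, `n` the number of the vertices at distance two from `v`, and `q` the number of edges. If
`(k + 1) n + 2 k ≤ 2 q`, then `G` is harmonious: there is a map onto the integers modulo `q` for which the sums at
the edges are different. -/
theorem result {V : Type} [Fintype V] (G : SimpleGraph V) (hG : G.IsTree) (hV : 2 ≤ Fintype.card V) (v : V)
    (hv : ∀ x, G.dist v x ≤ 2)
    (h : ({y : V | G.Adj v y ∧ ∃ x, G.Adj y x ∧ G.dist v x = 2}.ncard + 1) * {x : V | G.dist v x = 2}.ncard +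
      2 * {y : V | G.Adj v y ∧ ∃ x, G.Adj y x ∧ G.dist v x = 2}.ncard ≤ 2 * (Fintype.card V - 1)) :
    ∃ f : V → ZMod (Fintype.card V - 1), Function.Surjective f ∧
      ∀ u v x y : V, G.Adj u v → G.Adj x y → f u + f v = f x + f y → s(u, v) = s(x, y) := by
  classical
  obtain ⟨par, hr⟩ := Pool.Agent.H115R2.exists_root G hG v
  let X : Finset V := univ.filter fun x => G.dist v x = 2
  let Y : Finset V := X.image par
  have hd : ∀ x, x ≠ v → G.dist v x = G.dist v (par x) + 1 := fun x hx => hr.dist x hx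
  have hvv : G.dist v v = 0 := SimpleGraph.dist_self
  have memX : ∀ x, x ∈ X ↔ G.dist v x = 2 := fun x => by simp [X]
  have hXv : ∀ x ∈ X, x ≠ v := fun x hx h => by
    have := (memX x).1 hx
    rw [h, hvv] at this
    omega
  have hp1 : ∀ x ∈ X, G.dist v (par x) = 1 := fun x hx => by
    have := hd x (hXv x hx)
    have := (memX x).1 hx
    omega
  have hY1 : ∀ y ∈ Y, G.dist v y = 1 := fun y hy => by
    obtain ⟨x, hx, rfl⟩ := mem_image.1 hy
    exact hp1 x hx
  have hXc : X.card = {x : V | G.dist v x = 2}.ncard := by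
    rw [← Set.ncard_coe_finset]
    congr 1
    ext x
    simp [X]
  have hYc : Y.card ≤ {y : V | G.Adj v y ∧ ∃ x, G.Adj y x ∧ G.dist v x = 2}.ncard := by
    rw [← Set.ncard_coe_finset]
    refine Set.ncard_le_ncard ?_ (Set.toFinite _)
    intro y hy
    obtain ⟨x, hx, rfl⟩ := mem_image.1 (mem_coe.1 hy)
    exact ⟨SimpleGraph.dist_eq_one_iff_adj.1 (hp1 x hx), x, hr.adj x (hXv x hx), (memX x).1 hx⟩
  obtain ⟨s, hs1, hs2, hs3⟩ := exists_s par Y X fun x hx => mem_image_of_mem _ hx
  refine main G v par hr.cov (Fintype.card V - 1) (by omega) (by omega) Y X ?_ ?_ ?_ ?_ ?_ ?_ s Y.card hs1 hs2 ?_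
  · intro h1
    have := hY1 v h1
    omega
  · intro h1
    exact hXv v h1 rfl
  · intro x hx h1
    have := hY1 x h1
    have := (memX x).1 hx
    omega
  · exact fun x hx => mem_image_of_mem _ hx
  · intro y hy
    obtain ⟨x, hx, -⟩ := mem_image.1 hy
    exact ⟨x, hx⟩
  · intro x hx hxX
    have h1 := hd x hx
    have h2 := hv x
    rw [memX] at hxX
    have h3 : G.dist v (par x) = 0 := by omega
    exact ((hG.connected v (par x)).dist_eq_zero_iff.1 h3).symm
  · rw [hXc] at hs3
    have h1 : (Y.card + 1) * {x : V | G.dist v x = 2}.ncard ≤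
      ({y : V | G.Adj v y ∧ ∃ x, G.Adj y x ∧ G.dist v x = 2}.ncard + 1) * {x : V | G.dist v x = 2}.ncard :=
      Nat.mul_le_mul_right _ (by omega)
    omega

end Pool.Agent.Results.MP_9ddc60_co.RadiusTwo
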